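import Pool.Agent.H334R2.CM.Defs
set_option autoImplicit false
open scoped Matrix MatrixGroups
universe u
namespace CM

namespace DEC

open Polynomial

variable {k : Type u} [Field k] {A : Type u} [Ring A] [Algebra k A]

/-- evaluation in the corner ring `e A e` -/
noncomputable def ev (e x : A) (p : k[X]) : A := e * aeval x p

lemma comm_aeval {e x : A} (h : e * x = x) (h' : x * e = x) (p : k[X]) :
    aeval x p * e = e * aeval x p := by
  have hc : Commute x e := by rw [Commute, SemiconjBy, h, h']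
  have : Commute (aeval x p) e := by
    induction p using Polynomial.induction_on' with
    | add p q hp hq => rw [map_add]; exact hp.add_left hq
    | monomial n c =>
      rw [aeval_monomial]
      exact Commute.mul_left (Algebra.commutes c e) (hc.pow_left n)
  exact this

lemma ev_mul {e x : A} (he : e * e = e) (h : e * x = x) (h' : x * e = x) (p q : k[X]) :
    ev e x (p * q) = ev e x p * ev e x q := by
  unfold ev
  rw [map_mul]
  calc e * (aeval x p * aeval x q) = (e * e) * aeval x p * aeval x q := by rw [he, mul_assoc]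
    _ = e * (e * aeval x p) * aeval x q := by rw [mul_assoc e e]
    _ = e * (aeval x p * e) * aeval x q := by rw [comm_aeval h h' p]
    _ = e * aeval x p * (e * aeval x q) := by simp only [mul_assoc]

lemma ev_add {e x : A} (p q : k[X]) : ev e x (p + q) = ev e x p + ev e x q := by
  unfold ev
  rw [map_add, mul_add]

lemma ev_one {e x : A} : ev (k := k) e x 1 = e := by
  unfold ev
  rw [map_one, mul_one]

lemma ev_pow {e x : A} (he : e * e = e) (h : e * x = x) (h' : x * e = x) (p : k[X]) (m : ℕ) :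
    ev e x (p ^ (m + 1)) = ev e x p ^ (m + 1) := by
  induction m with
  | zero => simp
  | succ m ih => rw [pow_succ p (m + 1), ev_mul he h h', ih, ← pow_succ]

lemma e_ev {e x : A} (he : e * e = e) (p : k[X]) : e * ev e x p = ev e x p := by
  unfold ev
  rw [← mul_assoc, he]

lemma ev_e {e x : A} (he : e * e = e) (h : e * x = x) (h' : x * e = x) (p : k[X]) :
    ev e x p * e = ev e x p := by
  unfold ev
  rw [mul_assoc, comm_aeval h h' p, ← mul_assoc, he]

/-- splitting of a non-local idempotent -/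
lemma split [IsAlgClosed k] [FiniteDimensional k A] {e : A} (he : e * e = e) (he0 : e ≠ 0)
    (hl : ¬ IsLoc k e) : ∃ f g : A, f * f = f ∧ g * g = g ∧ f * g = 0 ∧ g * f = 0 ∧
      f + g = e ∧ f ≠ 0 ∧ g ≠ 0 := by
  classical
  have hx : ∃ x ∈ cor k e e, ∀ c : k, ¬ IsNilpotent (x - c • e) := by
    by_contra hcon
    push Not at hcon
    exact hl ⟨he0, he, hcon⟩
  obtain ⟨x, ⟨hx1, hx2⟩, hxn⟩ := hx
  have hex : ∃ n : ℕ, ∃ μ : k[X], μ ≠ 0 ∧ ev e x μ = 0 ∧ μ.natDegree = n := by
    refine ⟨_, minpoly k x, ?_, ?_, rfl⟩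
    · exact minpoly.ne_zero (Algebra.IsIntegral.isIntegral x)
    · unfold ev
      rw [minpoly.aeval, mul_zero]
  obtain ⟨μ, hμ0, hμ1, hμ2⟩ := Nat.find_spec hex
  have hmin : ∀ p : k[X], p ≠ 0 → ev e x p = 0 → μ.natDegree ≤ p.natDegree := by
    intro p hp hp'
    rw [hμ2]
    exact Nat.find_min' hex ⟨p, hp, hp', rfl⟩
  -- a root
  have hdeg : μ.degree ≠ 0 := by
    intro h0
    obtain ⟨c, hc⟩ : ∃ c : k, μ = C c := ⟨_, eq_C_of_degree_eq_zero h0⟩
    have hc0 : c ≠ 0 := by
      rintro rfl
      exact hμ0 (by rw [hc, C_0])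
    rw [hc, ev, aeval_C, ← Algebra.commutes, ← Algebra.smul_def] at hμ1
    rcases smul_eq_zero.1 hμ1 with h | h
    · exact hc0 h
    · exact he0 h
  obtain ⟨c, hc⟩ := IsAlgClosed.exists_root μ hdeg
  obtain ⟨p2, hp2, hnd⟩ := exists_eq_pow_rootMultiplicity_mul_and_not_dvd μ hμ0 c
  have hm : 0 < rootMultiplicity c μ := (rootMultiplicity_pos hμ0).2 hc
  obtain ⟨m, hm'⟩ : ∃ m, rootMultiplicity c μ = m + 1 := ⟨_, (Nat.succ_pred_eq_of_pos hm).symm⟩
  rw [hm'] at hp2
  have hcop : IsCoprime ((X - C c) ^ (m + 1)) p2 := by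
    apply IsCoprime.pow_left
    exact (irreducible_X_sub_C c).coprime_iff_not_dvd.2 hnd
  obtain ⟨u, v, huv⟩ := hcop
  have hp20 : p2 ≠ 0 := by
    rintro rfl
    exact hnd (dvd_zero _)
  have hXc : ev (k := k) e x (X - C c) = x - c • e := by
    unfold ev
    rw [map_sub, aeval_X, aeval_C, mul_sub, hx1, ← Algebra.commutes, ← Algebra.smul_def]
  set f := ev e x (u * (X - C c) ^ (m + 1)) with hf
  set g := ev e x (v * p2) with hg
  have hfg : f + g = e := by
    rw [hf, hg, ← ev_add, huv, ev_one]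
  have hfg0 : f * g = 0 := by
    rw [hf, hg, ← ev_mul he hx1 hx2]
    have : u * (X - C c) ^ (m + 1) * (v * p2) = u * v * μ := by rw [hp2]; ring
    rw [this, ev_mul he hx1 hx2, hμ1, mul_zero]
  have hgf0 : g * f = 0 := by
    rw [hf, hg, ← ev_mul he hx1 hx2]
    have : v * p2 * (u * (X - C c) ^ (m + 1)) = u * v * μ := by rw [hp2]; ring
    rw [this, ev_mul he hx1 hx2, hμ1, mul_zero]
  have hff : f * f = f := by
    have h1 : f * e = f := ev_e he hx1 hx2 _
    rw [← hfg, mul_add, hfg0, add_zero] at h1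
    exact h1
  have hgg : g * g = g := by
    have h1 : g * e = g := ev_e he hx1 hx2 _
    rw [← hfg, mul_add, hgf0, zero_add] at h1
    exact h1
  refine ⟨f, g, hff, hgg, hfg0, hgf0, hfg, ?_, ?_⟩
  · intro hf0
    have hge : g = e := by rw [← hfg, hf0, zero_add]
    -- then `(x - c e)^(m+1) = 0`
    have h1 : ev e x ((X - C c) ^ (m + 1)) = 0 := by
      have h2 : ev e x ((X - C c) ^ (m + 1)) * g = 0 := by
        rw [hg, ← ev_mul he hx1 hx2]
        have : (X - C c) ^ (m + 1) * (v * p2) = v * μ := by rw [hp2]; ring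
        rw [this, ev_mul he hx1 hx2, hμ1, mul_zero]
      rw [hge, ev_e he hx1 hx2] at h2
      exact h2
    rw [ev_pow he hx1 hx2, hXc] at h1
    exact hxn c ⟨m + 1, h1⟩
  · intro hg0
    have hfe : f = e := by rw [← hfg, hg0, add_zero]
    have h1 : ev e x p2 = 0 := by
      have h2 : ev e x p2 * f = 0 := by
        rw [hf, ← ev_mul he hx1 hx2]
        have : p2 * (u * (X - C c) ^ (m + 1)) = u * μ := by rw [hp2]; ring
        rw [this, ev_mul he hx1 hx2, hμ1, mul_zero]
      rw [hfe, ev_e he hx1 hx2] at h2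
      exact h2
    have h3 := hmin p2 hp20 h1
    have h4 : μ.natDegree = (m + 1) + p2.natDegree := by
      conv_lhs => rw [hp2]
      rw [natDegree_mul (pow_ne_zero _ (X_sub_C_ne_zero c)) hp20, natDegree_pow,
        natDegree_X_sub_C, mul_one]
    omega

end DEC

/-- every idempotent is an orthogonal sum of local idempotents -/
theorem DEC {k : Type u} [Field k] [IsAlgClosed k] {A : Type u} [Ring A] [Algebra k A]
    [FiniteDimensional k A] (e : A) (he : e * e = e) :
    ∃ (n : ℕ) (ε : Fin n → A), (∀ i, IsLoc k (ε i)) ∧ (∀ i, ε i ∈ cor k e e) ∧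
      (∀ i j, i ≠ j → ε i * ε j = 0) ∧ ∑ i, ε i = e := by
  induction hd : Module.finrank k (cor k e e) using Nat.strong_induction_on generalizing e with
  | _ d ih =>
  by_cases he0 : e = 0
  · exact ⟨0, Fin.elim0, fun i => i.elim0, fun i => i.elim0, fun i => i.elim0, by simp [he0]⟩
  by_cases hl : IsLoc k e
  · refine ⟨1, fun _ => e, fun _ => hl, fun _ => ⟨he, he⟩, fun i j hij => ?_, by simp⟩
    exact absurd (Subsingleton.elim i j) hij
  obtain ⟨f, g, hff, hgg, hfg0, hgf0, hfg, hf0, hg0⟩ := DEC.split he he0 hl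
  have hef : e * f = f := by rw [← hfg, add_mul, hff, hgf0, add_zero]
  have hfe : f * e = f := by rw [← hfg, mul_add, hff, hfg0, add_zero]
  have heg : e * g = g := by rw [← hfg, add_mul, hgg, hfg0, zero_add]
  have hge : g * e = g := by rw [← hfg, mul_add, hgg, hgf0, zero_add]
  have hlef : cor k f f ≤ cor k e e := by
    rintro x ⟨h1, h2⟩
    refine ⟨?_, ?_⟩
    · rw [← h1, ← mul_assoc, hef]
    · rw [← h2, mul_assoc, hfe]
  have hleg : cor k g g ≤ cor k e e := by
    rintro x ⟨h1, h2⟩
    refine ⟨?_, ?_⟩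
    · rw [← h1, ← mul_assoc, heg]
    · rw [← h2, mul_assoc, hge]
  have hltf : cor k f f < cor k e e := by
    refine lt_of_le_of_ne hlef fun h => ?_
    have : g ∈ cor k f f := h ▸ (⟨heg, hge⟩ : g ∈ cor k e e)
    exact hg0 (by rw [← this.1, hfg0])
  have hltg : cor k g g < cor k e e := by
    refine lt_of_le_of_ne hleg fun h => ?_
    have : f ∈ cor k g g := h ▸ (⟨hef, hfe⟩ : f ∈ cor k e e)
    exact hf0 (by rw [← this.1, hgf0])
  obtain ⟨n, ε, h1, h2, h3, h4⟩ := ih _ (hd ▸ Submodule.finrank_lt_finrank_of_lt hltf) f hff rfl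
  obtain ⟨n', ε', h1', h2', h3', h4'⟩ :=
    ih _ (hd ▸ Submodule.finrank_lt_finrank_of_lt hltg) g hgg rfl
  have hx1 : ∀ i j, ε i * ε' j = 0 := by
    intro i j
    rw [← (h2 i).2, ← (h2' j).1, mul_assoc, ← mul_assoc f, hfg0, zero_mul, mul_zero]
  have hx2 : ∀ i j, ε' i * ε j = 0 := by
    intro i j
    rw [← (h2' i).2, ← (h2 j).1, mul_assoc, ← mul_assoc g, hgf0, zero_mul, mul_zero]
  refine ⟨n + n', Fin.append ε ε', ?_, ?_, ?_, ?_⟩
  · intro i
    refine Fin.addCases (fun i => ?_) (fun i => ?_) i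
    · rw [Fin.append_left]; exact h1 i
    · rw [Fin.append_right]; exact h1' i
  · intro i
    refine Fin.addCases (fun i => ?_) (fun i => ?_) i
    · rw [Fin.append_left]; exact hlef (h2 i)
    · rw [Fin.append_right]; exact hleg (h2' i)
  · intro i j
    refine Fin.addCases (fun i => ?_) (fun i => ?_) i <;>
    refine Fin.addCases (fun j => ?_) (fun j => ?_) j
    · intro hij
      rw [Fin.append_left, Fin.append_left]
      exact h3 i j fun h => hij (by rw [h])
    · intro _
      rw [Fin.append_left, Fin.append_right]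
      exact hx1 i j
    · intro _
      rw [Fin.append_left, Fin.append_right]
      exact hx2 i j
    · intro hij
      rw [Fin.append_right, Fin.append_right]
      exact h3' i j fun h => hij (by rw [h])
  · rw [Fin.sum_univ_add]
    simp only [Fin.append_left, Fin.append_right]
    rw [h4, h4', hfg]

end CM
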